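import Mathlib
import Pool.Agent.V8H43.GE.MajFin

/-!
# Gap 3-SAT needs `2 ^ (c n)` gates in depth three with constant bottom fan-in

The formulas have their clauses on a fixed list of `m ≤ Δ n` triples of different variables
(`v j` is the triple `j`); a formula `F` tells for every triple which of the eight possible clauses
it contains (`Formula`). `falsified v F x` is the number of the clauses falsified by the assignment
`x`; `Satisfiable` and `Far v ε` are the two promise sets YES and NO of the problem (some assignment
falsifies no clause; the formula has a clause, and every assignment falsifies at least the fraction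
`ε` of the clauses).

`LocalConj k S`: the set `S` of formulas is a conjunction of any number of conditions each of which
depends on the clauses on at most `k` triples; so `S` can be any `k`-CNF in bits which describe the
clauses on one triple each.

For every `ρ > 0` there are `Δ` and `K` such that for all `n ≥ K` there are triples for which the
following holds for all `k ≥ 1`. We write `E = exp (n / (K k ^ 2 2 ^ k))`, which is `2 ^ (c_k n)`.
* If a real linear combination `∑ w_i 1_{S_i}` of (indicators of) such conjunctions or their
  complements (`k`-DNFs) is at least one on satisfiable formulas and at most zero on formulas of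
  which every assignment falsifies a fraction `1 / 8 - ρ` of the clauses, then
  `∑ |w_i| ≥ E / (2 k)`. So circuits of depth three with bottom fan-in `k` and `AND`, `OR` or
  `MAJORITY` gates at the top (with integer weights) need total weight `2 ^ (c_k n)`.
* If any function `g` of `q` such conjunctions or complements distinguishes these two cases, then
  `2 k 4 ^ q ≥ E`, that is `q ≥ c'_k n`.
The fraction `1 / 8 - ρ` is best possible: a random assignment falsifies one eighth of the clauses.
The number of clauses is `O(n)`, and `2 ^ n` is the cost of exhaustive search.

Proof. For a sparse system of linear equations with three unknowns each, any `r = n / K` of which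
are independent, and a right-hand side far from all values (`GE/Base`, from the starting files), the
formulas of the values `A x` are satisfiable and those of `A x + e` are far. In both cases any `r`
coordinates are uniformly distributed. A conjunction of `k`-local conditions either has many disjoint
nontrivial conditions, and is rarely satisfied in both cases, or all nontrivial conditions meet a
small set of coordinates; fix these and use induction on `k` (`GE/Fool`).
-/

set_option autoImplicit false

namespace Pool.Agent.Results.MP_87d05f_lc.DepthThreeMajority

open Finset Pool.Agent.V8H43.GE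
open scoped Classical

theorem result (ρ : ℝ) (hρ : 0 < ρ) : ∃ Δ K : ℕ, 1 ≤ Δ ∧ 1 ≤ K ∧ ∀ n : ℕ, K ≤ n →
    ∃ (m : ℕ) (v : Fin m → Fin 3 → Fin n), 1 ≤ m ∧ m ≤ Δ * n ∧
      (∀ j, Function.Injective (v j)) ∧ ∀ k : ℕ, 1 ≤ k →
        (∀ (s : ℕ) (S : Fin s → Set (Formula m)) (w : Fin s → ℝ),
          (∀ i, LocalConj k (S i) ∨ LocalConj k (S i)ᶜ) →
          (∀ F, Satisfiable v F → 1 ≤ ∑ i, if F ∈ S i then w i else 0) →
          (∀ F, Far v (1 / 8 - ρ) F → ∑ i, (if F ∈ S i then w i else 0) ≤ 0) →
          Real.exp (n / (K * k ^ 2 * 2 ^ k)) ≤ 2 * k * ∑ i, |w i|) ∧
        (∀ (q : ℕ) (S : Fin q → Set (Formula m)) (g : Set (Finset (Fin q))),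
          (∀ i, LocalConj k (S i) ∨ LocalConj k (S i)ᶜ) →
          (∀ F, Satisfiable v F → univ.filter (fun i => F ∈ S i) ∈ g) →
          (∀ F, Far v (1 / 8 - ρ) F → univ.filter (fun i => F ∈ S i) ∉ g) →
          Real.exp (n / (K * k ^ 2 * 2 ^ k)) ≤ 2 * k * 4 ^ q) :=
  main ρ hρ

end Pool.Agent.Results.MP_87d05f_lc.DepthThreeMajority
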