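import Mathlib
import Pool.Agent.V8H43.MS.Fin

/-!
# Gap 3-SAT and monotone span programs

The formulas have their clauses on a fixed list of `M ≤ Δ N` triples of different variables
(`V t` is the triple `t`); a formula `Φ` tells for every triple which of the eight possible clauses
it contains (`Formula`). `Satisfiable V Φ` and `Far V ε Φ` are the two promise sets YES and NO of the
problem (some assignment falsifies no clause; the formula has a clause, and every assignment
falsifies at least the fraction `ε` of the clauses). Satisfiability is a monotone property in the
literals `the clause with the signs σ on the triple t does not occur`.

`SpanProgram F M s d`: `s` vectors in `F ^ d` which are labelled with such literals, and a target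
vector. The program accepts a formula if the target is a linear combination of the vectors whose
literals are true. Monotone formulas and monotone switching networks (`s`-`t` connectivity in a graph
whose edges are labelled with literals) are special cases, over every field. `MonoFormula M`:
monotone formulas in the same literals.

For every `ρ > 0` there are `Δ` and `C` such that for all `N ≥ C` there are triples for which the
following holds.
* Over every field of characteristic different from two, each monotone span program which accepts all
  satisfiable formulas and rejects all formulas of which every assignment falsifies the fraction
  `1 / 8 - ρ` of the clauses has at least `2 ^ (N / C)` vectors.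
* Each monotone formula which distinguishes these two cases has at least `2 ^ (N / C)` leaves.
The fraction `1 / 8 - ρ` is best possible: a random assignment falsifies one eighth of the clauses.
The number of clauses is `O(N)`, and `2 ^ N` is the cost of exhaustive search. In characteristic two
the formulas of systems of linear equations used here are easy for span programs.

Proof. Take an expanding sparse system of linear equations with three unknowns each and a right-hand
side `e` far from all values (from the starting files). The signs of the short combinations of the
equations give a polynomial `p` on the cube whose top coefficient is one, and such that `p` has degree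
at most `n - c n` on each set of points which violate one given equation (`MS/Design`, `MS/Core`). Replace
each variable by `b` variables and let the formula choose one of them. The matrix
`p (x_1 (y_1), …, x_n (y_n))` has rank at least `b ^ n`, but on the rectangle of a literal (the
assignment `x` falsifies the clause, and the formula of the choice `y` contains it) it agrees with a
matrix of rank at most `2 ^ n b ^ (n - c n)` (`MS/Rank`). A span program of size `s` or a formula with
`s` leaves writes the all-one matrix as a sum of `s` matrices of rank one which are supported on these
rectangles.
-/

set_option autoImplicit false

namespace Pool.Agent.Results.MP_87d05f_lc.MonotoneSpanPrograms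

open Pool.Agent.V8H43.GE Pool.Agent.V8H43.MS

theorem result (ρ : ℝ) (hρ : 0 < ρ) : ∃ Δ C : ℕ, 1 ≤ Δ ∧ 1 ≤ C ∧ ∀ N : ℕ, C ≤ N →
    ∃ (M : ℕ) (V : Fin M → Fin 3 → Fin N), 1 ≤ M ∧ M ≤ Δ * N ∧
      (∀ t, Function.Injective (V t)) ∧
      (∀ (F : Type) [Field F], (2 : F) ≠ 0 → ∀ (s d : ℕ) (P : SpanProgram F M s d),
        (∀ Φ, Satisfiable V Φ → P.Accepts Φ) → (∀ Φ, Far V (1 / 8 - ρ) Φ → ¬ P.Accepts Φ) →
        (2 : ℝ) ^ ((N : ℝ) / C) ≤ s) ∧
      (∀ p : MonoFormula M,
        (∀ Φ, Satisfiable V Φ → p.Accepts Φ) → (∀ Φ, Far V (1 / 8 - ρ) Φ → ¬ p.Accepts Φ) →
        (2 : ℝ) ^ ((N : ℝ) / C) ≤ p.leaves) :=
  main ρ hρ

end Pool.Agent.Results.MP_87d05f_lc.MonotoneSpanPrograms
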