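import Pool.Agent.V8H51.RG.Final
import Pool.Agent.V8H51.RS.Sim2

set_option autoImplicit false

/-!
# Gap 3-SAT and deterministic programs with recursion which read linearly many bits

A deterministic program with recursion (`Prog`) has finitely many states; in a state it reads an
input bit and branches on its value, or it calls itself in another state and branches on the state
in which this call ends, or it ends the present call. There is no bound on the number of steps or
on the depth of the recursion. By clauses (3) and (4) the programs with polynomially many states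
compute exactly the functions in P/poly.

The theorem: for every `k` there is a gap such that the programs which separate satisfiable 3-CNF
formulas from those in which every assignment falsifies a constant fraction of the clauses, and
which on the satisfiable inputs read `n` chosen sign bits (of a formula with a linear number of
clauses) at most `k * n` times, have `2 ^ Ω(n)` states, as in the Gap Exponential Time Hypothesis.
Only the reads which are really made in the runs on the inputs count, in any order, depending on
the input; the other bits of the formula can be read without restriction.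
-/

namespace Pool.Agent.Results.MP_87d05f_lc.RecursivePrograms

open Pool.Agent.V8H51.RS Pool.Agent.V8H51.RG Pool.Agent.H554R2.Sem Pool.Agent.H554R2.Cnf

/-- The instance of 3-SAT which is obtained from `b` if the sign of the first literal of the clause
`a i` is changed to `x i`, for all `i`. -/
noncomputable abbrev inst {n M ℓ : ℕ} (a : Fin n ↪ Fin M) (b : Idx M ℓ → Bool) (x : Pt n) :
    Idx M ℓ → Bool :=
  plug (fun i => sgn ℓ (a i)) b x

/-- The number of times the signs of the first literals of the clauses `a i` are read, if `L` is
the list of the bits which are read. -/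
def signs {n M ℓ : ℕ} (a : Fin n ↪ Fin M) (L : List (Idx M ℓ)) : ℕ :=
  ∑ i, L.count (sgn ℓ (a i))

theorem result :
    (∀ k : ℕ, ∃ D : ℕ, 0 < D ∧ ∀ (n M ℓ : ℕ) (a : Fin n ↪ Fin M), D * n ≤ M → D * n ≤ 2 ^ ℓ →
      ∃ b : Idx M ℓ → Bool,
        -- (1) programs with recursion
        (∀ (R : Type) [Fintype R] [Nonempty R] (U : R → Prog (Idx M ℓ)),
          (∀ (r : R) (x : Pt n) (L : List (Idx M ℓ)), (U r).Accepts (inst a b x) L →
            ¬ Far (n / D) (inst a b x)) →
          Nat.card R * Nat.card {x : Pt n // Sat3 (inst a b x)} ≤ 2 ^ (n / D) *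
            Nat.card {u : R × Pt n // Sat3 (inst a b u.2) ∧
              ∃ L, (U u.1).Accepts (inst a b u.2) L ∧ signs a L ≤ k * n} →
          ∃ r, 2 ^ (n / D) ≤ Fintype.card (U r).State) ∧
        -- (2) recursive evaluation of circuits
        ∀ C : Circuit (Idx M ℓ),
          (∀ x : Pt n, C.out (inst a b x) = true → ¬ Far (n / D) (inst a b x)) →
          Nat.card {x : Pt n // Sat3 (inst a b x)} ≤ 2 ^ (n / D) *
            Nat.card {x : Pt n // Sat3 (inst a b x) ∧ C.out (inst a b x) = true ∧
              signs a (C.reads (inst a b x)) ≤ k * n} →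
          2 ^ (n / D) ≤ 3 * C.length + 2) ∧
    -- (3) circuits are programs
    (∀ (V : Type) (C : Circuit V), ∃ P : Prog V, Fintype.card P.State = 3 * C.length + 2 ∧
      ∀ x : V → Bool, ∃ r, Run P x P.start (C.reads x) r ∧ (P.acc r ↔ C.out x = true)) ∧
    -- (4) programs are circuits
    ∀ (V : Type) (P : Prog V), ∃ C : Circuit V, C.length ≤ 16 * Fintype.card P.State ^ 5 ∧
      ∀ x : V → Bool, C.out x = true ↔ ∃ L, P.Accepts x L := by
  classical
  refine ⟨fun k => ?_, fun V C => sim1 C, fun V P => sim2 P⟩
  obtain ⟨D, hD, h⟩ := finalG k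
  refine ⟨D, hD, fun n M ℓ a hM hℓ => ?_⟩
  obtain ⟨b, hb⟩ := h n M ℓ a hM hℓ
  refine ⟨b, hb, fun C hC hl => ?_⟩
  obtain ⟨P, hP, hx⟩ := sim1 C
  have hacc : ∀ (w : Idx M ℓ → Bool) L, P.Accepts w L → C.out w = true ∧ L = C.reads w := by
    rintro w L ⟨r, hr, hL⟩
    obtain ⟨r', h1, h2⟩ := hx w
    obtain ⟨h3, h4⟩ := (RunH.of_run hL).det (RunH.of_run h1)
    rw [h4] at hr
    exact ⟨h2.1 hr, h3⟩
  obtain ⟨r, hr⟩ := hb Unit (fun _ => P) (fun _ x L hL => hC x (hacc _ L hL).1) (by
    rw [Nat.card_unique, one_mul]
    refine hl.trans (Nat.mul_le_mul_left _ ?_)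
    refine Nat.card_le_card_of_injective
      (fun y => ⟨((), y.1), y.2.1, C.reads (inst a b y.1), ?_, y.2.2.2⟩) ?_
    · obtain ⟨r', h1, h2⟩ := hx (inst a b y.1)
      exact ⟨r', h2.2 y.2.2.1, h1⟩
    · intro y z hyz
      exact Subtype.ext (by simpa using hyz))
  rw [hP] at hr
  exact hr

end Pool.Agent.Results.MP_87d05f_lc.RecursivePrograms
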