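import Pool.Agent.V8H51.TN.Final

set_option autoImplicit false

/-!
# Gap 3-SAT and circuits of small treewidth which read linearly many bits

A circuit (`Circ`) is a directed acyclic graph of gates with arbitrary fan-out. The wires carry words.
A gate receives the words computed by the (at most `d`) gates which feed it; then it reads some
input bits, which it can choose depending on these words and on the bits already read, and computes
a word by an arbitrary function (`op g u` is a decision tree). There is no bound on the memory or
the time used inside a gate. A nondeterministic circuit (`NCirc`) also has guesses: each gate guesses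
an element of a second set, receives also the guesses of the gates which feed it, and makes a
check, depending on all it knows; the guesses do not influence which bits are read.

The theorem: for every `k` there is a gap such that nondeterministic circuits of small treewidth
which separate satisfiable 3-CNF formulas from those in which every assignment falsifies a constant
fraction of the clauses, and which on the satisfiable inputs read `n` chosen sign bits (of a formula
with a linear number of clauses) at most `k * n` times altogether and at most `n / D` times in one
gate, have `2 ^ (n / D)` gates, as in the Gap Exponential Time Hypothesis; here small treewidth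
means less than about `n / (D w d)`, so also all constraint networks of sublinear treewidth
in which an input bit is used a constant number of times are covered. Only the reads which are
really made on the inputs count; the other bits of the formula can be read without restriction.

The proof is that of `MP_79d702_lc.SmallTreewidth` together with the gap instances of
`MP_87d05f_lc.RecursivePrograms`.
-/

namespace Pool.Agent.Results.MP_87d05f_lc.SmallTreewidth

open Pool.Agent.V8H51.TW Pool.Agent.V8H51.TN Pool.Agent.V8H51.RG Pool.Agent.H554R2.Sem
open Pool.Agent.H554R2.Cnf

/-- The instance of 3-SAT which is obtained from `b` if the sign of the first literal of the clause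
`a i` is changed to `x i`, for all `i`. -/
noncomputable abbrev inst {n M ℓ : ℕ} (a : Fin n ↪ Fin M) (b : Idx M ℓ → Bool) (x : Pt n) :
    Idx M ℓ → Bool :=
  plug (fun i => sgn ℓ (a i)) b x

/-- The number of times the signs of the first literals of the clauses `a i` are read, if `L` is
the list of the bits which are read. -/
def signs {n M ℓ : ℕ} (a : Fin n ↪ Fin M) (L : List (Idx M ℓ)) : ℕ :=
  ∑ i, L.count (sgn ℓ (a i))

theorem result (k : ℕ) : ∃ D : ℕ, 0 < D ∧ ∀ (n M ℓ : ℕ) (a : Fin n ↪ Fin M), D * n ≤ M →
    D * n ≤ 2 ^ ℓ → ∃ b : Idx M ℓ → Bool, ∀ (t w d : ℕ) (R : Type) [Fintype R] [Nonempty R]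
      (α γ : Type) [Fintype α] [Fintype γ] (U : R → NCirc (Idx M ℓ) α γ),
      Fintype.card α * Fintype.card γ ≤ 2 ^ w → (∀ r, (U r).TreewidthLE t) →
      (∀ r g, (U r).arity g ≤ d) →
      (∀ r (x : Pt n), (U r).Accepts (inst a b x) → ¬ Far (n / D) (inst a b x)) →
      Nat.card R * Nat.card {x : Pt n // Sat3 (inst a b x)} ≤ 2 ^ (n / D) *
        Nat.card {u : R × Pt n // Sat3 (inst a b u.2) ∧ (U u.1).Accepts (inst a b u.2) ∧
          ∑ g, signs a ((U u.1).read (inst a b u.2) g) ≤ k * n ∧
          ∀ g, signs a ((U u.1).read (inst a b u.2) g) ≤ n / D} →
      n / D ≤ w * ((d + 1) * (t + 1)) ∨ ∃ r, 2 ^ (n / D) ≤ (U r).size :=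
  finalNG k

end Pool.Agent.Results.MP_87d05f_lc.SmallTreewidth
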